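import Mathlib
import Pool.Agent.Helper34.ZP.G5c

/-!
# One layer, with an algebraic projector
-/

universe u v w t

open CategoryTheory TensorProduct

namespace Pool.Agent.Helper4.PR

open Pool.Agent.Helper10 Pool.Agent.Helper11.Iso SmProjVar SPre Pool.Agent.Helper34.ZP

section Lin

variable {F : Type*} [Field F] {V : Type*} [AddCommGroup V] [Module F V] [Module.Finite F V]

/-- an endomorphism of the range of a projector which is not injective there -/
lemma rank_lt {p e : V →ₗ[F] V} (hep : e ∘ₗ p = e) {y : V} (hy0 : y ≠ 0) (hpy : p y = y)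
    (hey : e y = 0) : Module.finrank F (LinearMap.range e) <
      Module.finrank F (LinearMap.range p) := by
  have h1 : LinearMap.range e = (LinearMap.range p).map e := by
    rw [← LinearMap.range_comp, hep]
  have h2 := G5c_finrank_map e (LinearMap.range p)
  have h3 : 0 < Module.finrank F (LinearMap.range p ⊓ LinearMap.ker e : Submodule F V) := by
    rw [Module.finrank_pos_iff_exists_ne_zero]
    refine ⟨⟨y, ⟨y, hpy⟩, hey⟩, fun h => hy0 (congrArg Subtype.val h)⟩
  rw [h1]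
  omega

/-- counting dimensions in a subspace -/
lemma count {W : Type*} [AddCommGroup W] [Module F W] (f : V →ₗ[F] W)
    {N M : Submodule F V} {R : ℕ} (hR : rdim N (M ⊓ LinearMap.ker f) ≤ R) :
    Module.finrank F ((M ⊓ N).map f) + rdim N M ≤ Module.finrank F (M.map f) + R := by
  have h1 : rdim (M ⊓ N) (M ⊓ LinearMap.ker f) ≤ R := by
    have h2 : ((M ⊓ LinearMap.ker f) ⊓ (M ⊓ N) : Submodule F V) =
        (M ⊓ LinearMap.ker f) ⊓ N := by
      rw [← inf_assoc, inf_right_comm M (LinearMap.ker f) M, inf_idem]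
    unfold rdim at hR ⊢
    rw [h2]
    exact hR
  have h3 : rdim (M ⊓ N) M = rdim N M := by
    unfold rdim
    rw [← inf_assoc, inf_idem]
  have h4 := G5c_count f (inf_le_left : M ⊓ N ≤ M) h1
  rw [h3] at h4
  exact h4

end Lin

variable {k : Type u} [Field k] {K : Type t} [Field K] {Ω : Type v} [Field Ω] [Algebra K Ω]
  {P : SPre.{u, v, w, t} k K Ω}

/-- the algebraic maps which factor through `p` and kill `y` -/
lemma ann_proj [CharZero Ω] {V : SmProjVar k} {y : P.H V} (hy0 : y ≠ 0)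
    (hnil : ∀ x ∈ Nul P V V, IsNilpotent (x : Module.End Ω (P.H V)))
    {p : P.H V →ₗ[Ω] P.H V} (hpy : p y = y) :
    ∃ e ∈ Mor P V V, e ∘ₗ e = e ∧
      Module.finrank Ω (LinearMap.range e) < Module.finrank Ω (LinearMap.range p) ∧
      ∀ Y : SmProjVar k, ∀ T ∈ Mor P V Y, T ∘ₗ p = T → T y = 0 → T - T ∘ₗ e ∈ Nul P V Y := by
  have hnc := nul_corrAlg (P := P) V
  let R : Submodule Ω (Module.End Ω (P.H V)) :=
    LinearMap.ker (precomp p - LinearMap.id : Module.End Ω (P.H V) →ₗ[Ω] Module.End Ω (P.H V))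
  let L : Submodule Ω (Module.End Ω (P.H V)) :=
    Subalgebra.toSubmodule (P.corrAlg V) ⊓ (LinearMap.ker (LinearMap.applyₗ y) ⊓ R)
  have hL : ∀ x, x ∈ L ↔ x ∈ Mor P V V ∧ x y = 0 ∧ x ∘ₗ p = x := fun x => by
    have h1 : x ∈ R ↔ x ∘ₗ p = x := by
      rw [LinearMap.mem_ker, LinearMap.sub_apply, LinearMap.id_apply, sub_eq_zero]
      exact Iff.rfl
    rw [← h1]
    exact Iff.rfl
  obtain ⟨e, heL, hee, -, hLe⟩ := exists_idem_of_nil (P.corrAlg V) (par P V)
    (LinearMap.ext fun x => par_par x) (isCat V V).sA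
    (by rw [hnc]; exact hnil) L (fun x hx => ((hL x).1 hx).1)
    (fun a ha x hx => (hL _).2 ⟨(isCat V V).AA a ha x ((hL x).1 hx).1, by
      rw [Module.End.mul_apply, ((hL x).1 hx).2.1, map_zero], by
      change (a ∘ₗ x) ∘ₗ p = a ∘ₗ x
      rw [LinearMap.comp_assoc, ((hL x).1 hx).2.2]⟩)
    (by
      rintro ⟨x, hx, n, hn, hxn⟩
      rw [hnc] at hn
      have h1 : n y = y := by
        have := LinearMap.congr_fun hxn y
        rw [LinearMap.add_apply, ((hL x).1 hx).2.1, zero_add, Module.End.one_apply] at this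
        exact this
      obtain ⟨j, hj⟩ := hnil n hn
      have h2 : ∀ i : ℕ, ((n : Module.End Ω (P.H V)) ^ i) y = y := by
        intro i
        induction i with
        | zero => rw [pow_zero, Module.End.one_apply]
        | succ i ih => rw [pow_succ, Module.End.mul_apply, h1, ih]
      have h3 := h2 j
      rw [hj, LinearMap.zero_apply] at h3
      exact hy0 h3.symm)
  obtain ⟨heM, hey, hep⟩ := (hL e).1 heL
  refine ⟨e, heM, hee, rank_lt hep hy0 hpy hey, fun Y T hT hTp hTy => ?_⟩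
  refine ⟨sub_mem hT ((isCat V Y).BA T hT e heM), fun S hS => ?_⟩
  have h1 : S ∘ₗ T ∈ L := (hL _).2 ⟨(isCat V Y).CB S hS T hT, by
    rw [LinearMap.comp_apply, hTy, map_zero], by
    rw [LinearMap.comp_assoc, hTp]⟩
  have h2 := hLe _ h1
  rw [hnc] at h2
  have h3 := h2.2 LinearMap.id (isCat V V).idA
  rw [LinearMap.id_comp] at h3
  have h4 : S ∘ₗ (T - T ∘ₗ e) ∘ₗ par P V =
      ((S ∘ₗ T : Module.End Ω (P.H V)) - (S ∘ₗ T : Module.End Ω (P.H V)) * e) ∘ₗ par P V := by
    refine LinearMap.ext fun x => ?_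
    simp only [LinearMap.comp_apply, LinearMap.sub_apply, map_sub, Module.End.mul_apply]
  rw [h4]
  exact h3

/-- the rank of a projector, in terms of maps -/
lemma rho_adj_eq {V Y : SmProjVar k} {e : P.H V →ₗ[Ω] P.H V} (heM : e ∈ Mor P V V) :
    rho P (tmap (adj e) (LinearMap.id : P.H (Y.prod Y) →ₗ[Ω] P.H (Y.prod Y))) =
      rdim (Nul P V (Y.prod Y)) ((Mor P V (Y.prod Y)).map (precomp e)) := by
  unfold rho
  rw [← rdim_map_opL, ← map_opL_alg, ← Submodule.map_comp, ← Submodule.map_comp]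
  congr 2
  refine LinearMap.ext fun c => ?_
  rw [LinearMap.comp_apply, LinearMap.comp_apply, opL_apply, opL_apply, op_tmap, adj_adj heM,
    LinearMap.id_comp]
  rfl

/-- piece F -/
theorem layer_proj [CharZero Ω] {V Z : SmProjVar k} {y : P.H V} {z : P.H Z} (_ : y ∈ P.alg V)
    (hy0 : y ≠ 0) (hz : P.rad Z z)
    (hnil : ∀ x ∈ Nul P V V, IsNilpotent (x : Module.End Ω (P.H V)))
    {p : P.H V →ₗ[Ω] P.H V} (hp : p ∈ Mor P V V) (hpp : p ∘ₗ p = p) (hpy : p y = y)
    (Y : SmProjVar k) :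
    Module.finrank Ω (cyc P (P.ext V Z y z) (Y.prod Y)) +
        rho P (tmap (adj p) (LinearMap.id : P.H (Y.prod Y) →ₗ[Ω] P.H (Y.prod Y))) ≤
      Module.finrank Ω (cyc P y (Y.prod Y)) +
        (Module.finrank Ω (LinearMap.range p) - 1) * nr P (Y.prod Y) := by
  obtain ⟨e, heM, hee, hrk, hann⟩ := ann_proj (P := P) hy0 hnil hpy
  set M : Submodule Ω (P.H V →ₗ[Ω] P.H (Y.prod Y)) :=
    (Mor P V (Y.prod Y)).map (precomp p) with hM
  have hMem : ∀ T, T ∈ M ↔ T ∈ Mor P V (Y.prod Y) ∧ T ∘ₗ p = T := by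
    intro T
    constructor
    · rintro ⟨S, hS, rfl⟩
      refine ⟨(isCat V (Y.prod Y)).BA S hS p hp, ?_⟩
      change (S ∘ₗ p) ∘ₗ p = S ∘ₗ p
      rw [LinearMap.comp_assoc, hpp]
    · rintro ⟨hT, h⟩
      exact ⟨T, hT, h⟩
  -- the classes `T (y ⊗ z)`
  have h1 : Module.finrank Ω (cyc P (P.ext V Z y z) (Y.prod Y)) ≤
      Module.finrank Ω ((M ⊓ Nul P V (Y.prod Y)).map (LinearMap.applyₗ y)) := by
    refine Submodule.finrank_mono ((G5c_cyc_le (P := P) (y := y) hz (Y.prod Y)).trans ?_)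
    rintro _ ⟨T, hT, rfl⟩
    refine ⟨T ∘ₗ p, ⟨⟨T, hT.1, rfl⟩, ?_⟩, ?_⟩
    · exact Nul_comp hp hT
    · change T (p y) = T y
      rw [hpy]
  -- the classes `T y`
  have h2 : Module.finrank Ω (M.map (LinearMap.applyₗ y)) ≤
      Module.finrank Ω (cyc P y (Y.prod Y)) := by
    refine Submodule.finrank_mono ?_
    rintro _ ⟨T, hT, rfl⟩
    exact ⟨T, ((hMem T).1 hT).1, rfl⟩
  have hadj : adj e ∈ Mor P V V := adj_mem_Mor heM
  have hadj2 : adj e ∘ₗ adj e = adj e := by rw [← adj_comp, hee]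
  have h3 := rho_le (P := P) V Y hadj hadj2
  rw [finrank_range_adj, rho_adj_eq heM] at h3
  have h4 : rdim (Nul P V (Y.prod Y)) (M ⊓ LinearMap.ker (LinearMap.applyₗ y)) ≤
      (Module.finrank Ω (LinearMap.range p) - 1) * nr P (Y.prod Y) := by
    refine (G5c_rdim_mono (S' := (Mor P V (Y.prod Y)).map (precomp e)) ?_).trans
      (h3.trans (Nat.mul_le_mul_right _ (by omega)))
    rintro T ⟨hT, hTy⟩
    obtain ⟨hT1, hT2⟩ := (hMem T).1 hT
    have h5 := hann _ T hT1 hT2 (LinearMap.mem_ker.1 hTy)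
    have h6 : T = precomp e T + (T - T ∘ₗ e) := by
      rw [show precomp e T = T ∘ₗ e from rfl, add_sub_cancel]
    rw [h6]
    exact Submodule.add_mem_sup ⟨T, hT1, rfl⟩ h5
  have h5 := count (LinearMap.applyₗ y) h4
  rw [rho_adj_eq hp, ← hM]
  omega

end Pool.Agent.Helper4.PR
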