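import Mathlib
import Pool.Agent.Helper34.ZP.G8
import Pool.Agent.Helper4.PR.Layer

/-!
# The sum of the layers, with algebraic projectors
-/

universe u v w t

open CategoryTheory TensorProduct

namespace Pool.Agent.Helper4.PR

open Pool.Agent.Helper10 Pool.Agent.Helper11.Iso SmProjVar SPre Pool.Agent.Helper34.ZP

variable {k : Type u} [Field k] {K : Type t} [Field K] {Ω : Type v} [Field Ω] [Algebra K Ω]
  {P : SPre.{u, v, w, t} k K Ω}

/-- the sum of the layers, with projectors `p i` which fix the powers of `z` -/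
theorem layers_proj [CharZero Ω] {Z : SmProjVar k} {z : P.H Z} (hz : P.rad Z z) (hz0 : z ≠ 0)
    {p : ∀ i, P.H (Z.selfProd i) →ₗ[Ω] P.H (Z.selfProd i)}
    (hp : ∀ i, p i ∈ Mor P (Z.selfProd i) (Z.selfProd i)) (hpp : ∀ i, p i ∘ₗ p i = p i)
    (hpz : ∀ i, p i (zpow z i) = zpow z i) (Y : SmProjVar k) (n : ℕ)
    (hnil : ∀ i < n, ∀ x ∈ Nul P (Z.selfProd i) (Z.selfProd i),
      IsNilpotent (x : Module.End Ω (P.H (Z.selfProd i)))) :
    Module.finrank Ω (cyc P (zpow z n) (Y.prod Y)) + (nr P (Y.prod Y) +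
      ∑ i ∈ Finset.range n,
        rho P (tmap (adj (p i)) (LinearMap.id : P.H (Y.prod Y) →ₗ[Ω] P.H (Y.prod Y)))) ≤
      hr P (Y.prod Y) + ∑ i ∈ Finset.range n,
        (Module.finrank Ω (LinearMap.range (p i)) - 1) * nr P (Y.prod Y) := by
  induction n with
  | zero =>
    have h := layer_zero hz (Y.prod Y)
    rw [Finset.sum_range_zero, Finset.sum_range_zero, add_zero, add_zero]
    exact h
  | succ n ih =>
    have ih := ih fun i hi => hnil i (by omega)
    have h := layer_proj (zpow_mem hz.1 n) (zpow_ne_zero hz0 n) hz (hnil n (by omega)) (hp n)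
      (hpp n) (hpz n) Y
    have h' : Module.finrank Ω (cyc P (zpow z (n + 1)) (Y.prod Y)) +
        rho P (tmap (adj (p n)) (LinearMap.id : P.H (Y.prod Y) →ₗ[Ω] P.H (Y.prod Y))) ≤
        Module.finrank Ω (cyc P (zpow z n) (Y.prod Y)) +
          (Module.finrank Ω (LinearMap.range (p n)) - 1) * nr P (Y.prod Y) := h
    rw [Finset.sum_range_succ, Finset.sum_range_succ]
    omega

end Pool.Agent.Helper4.PR
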