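import Mathlib
import Pool.Agent.Helper13.ZP.Unif
import Pool.Agent.Helper13.ZP.Par
import Pool.Agent.Helper13.PR.Kos4
import Pool.Agent.Helper4.PR.Layers

/-!
# The sum of the layers with the projectors to the symmetric powers of the even part
-/

universe u v w t

open CategoryTheory TensorProduct

namespace Pool.Agent.Helper4.PR

open Pool.Agent.Helper10 Pool.Agent.Helper11.Iso SmProjVar SPre Pool.Agent.Helper34.ZP
  Pool.Agent.Helper59.ZO Pool.Agent.Helper13.ZP Pool.Agent.Helper13.PR

variable {k : Type u} [Field k] {K : Type t} [Field K] {Ω : Type v} [Field Ω] [Algebra K Ω]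
  {P : SPre.{u, v, w, t} k K Ω}

/-- the layers with the projectors to the symmetric powers of the even part -/
theorem layers_syp [CharZero Ω] {X : SmProjVar k} (hX : par P X ∈ Mor P X X) {r : ℕ}
    (hD : ¬ P.D (X.selfProd r)) (l k0 : ℕ) :
    nr P ((X.selfProd l).prod (X.selfProd l)) + ∑ i ∈ Finset.range k0,
        rho P (tmap (syp P (X.selfProd (2 * r + 1)) i)
          (LinearMap.id : P.H ((X.selfProd l).prod (X.selfProd l)) →ₗ[Ω] _)) ≤
      hr P ((X.selfProd l).prod (X.selfProd l)) + ∑ i ∈ Finset.range k0,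
        (Module.finrank Ω (LinearMap.range (syp P (X.selfProd (2 * r + 1)) i)) - 1) *
          nr P ((X.selfProd l).prod (X.selfProd l)) := by
  obtain ⟨z, hz, hz0⟩ := exists_even' hD
  have hZ := par_selfProd_mem hX (2 * r + 1)
  have h := layers_proj hz hz0 (p := fun i => syp P (X.selfProd (2 * r + 1)) i)
    (fun i => syp_mem hZ i) (fun i => syp_idem _ i)
    (fun i => syp_zpow (P.alg_le_ev _ hz.1) i) (X.selfProd l) k0
    (fun i _ => nil_of_par hZ i)
  simp only [adj_syp hZ] at h
  exact (Nat.le_add_left _ _).trans h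

end Pool.Agent.Helper4.PR
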